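import Pool.Agent.H.MP_8c6834_co.A

namespace Pool.Agent.Results.MP_8c6834_co.Chain

open Pool.Agent.H.MP_8c6834_co

/-- F contains an induced copy of the poset P -/
def HasCopy (P : Type) [PartialOrder P] {n t : ℕ} (F : Set (Fin n → Fin t)) : Prop :=
  ∃ φ : P ↪o (Fin n → Fin t), ∀ x, φ x ∈ F

def Saturated (P : Type) [PartialOrder P] {n t : ℕ} (F : Set (Fin n → Fin t)) : Prop :=
  ¬ HasCopy P F ∧ ∀ f, f ∉ F → HasCopy P (insert f F)

/-- minimum size of an induced P-saturated family in the grid of functions Fin n to Fin t -/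
noncomputable def sat (P : Type) [PartialOrder P] (n t : ℕ) : ℕ :=
  sInf {m | ∃ F : Set (Fin n → Fin t), Saturated P F ∧ F.ncard = m}

def enc (t : ℕ) (p : Fin 2 → Fin t) : ℕ := (p 0).val + t * (p 1).val

def dec5 (i : ℕ) : Fin 2 → Fin 5 := ![Fin.ofNat 5 i, Fin.ofNat 5 (i / 5)]
def dec4 (i : ℕ) : Fin 2 → Fin 4 := ![Fin.ofNat 4 i, Fin.ofNat 4 (i / 4)]

lemma lt_iff {t : ℕ} (p q : Fin 2 → Fin t) : p < q ↔ p 0 ≤ q 0 ∧ p 1 ≤ q 1 ∧ p ≠ q := by
  rw [lt_iff_le_and_ne, Pi.le_def, Fin.forall_fin_two, and_assoc]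

lemma enc4_inj : Function.Injective (enc 4) := by decide +kernel
lemma enc4_lt : ∀ p, enc 4 p < 16 := by decide +kernel
lemma lt4_enc : ∀ p q : Fin 2 → Fin 4, p 0 ≤ q 0 ∧ p 1 ≤ q 1 ∧ p ≠ q →
    lt4 (enc 4 p) (enc 4 q) = true := by decide +kernel

lemma copy4 {F : Set (Fin 2 → Fin 4)} (h : HasCopy (Fin 7) F) :
    ∃ c ∈ ch, ∀ i ∈ c, ∃ p ∈ F, enc 4 p = i := by
  obtain ⟨φ, hφ⟩ := h
  have l : ∀ a b, a < b → lt4 (enc 4 (φ a)) (enc 4 (φ b)) = true := fun a b hab =>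
    lt4_enc _ _ ((lt_iff _ _).1 (φ.strictMono hab))
  refine ⟨_, chains _ _ _ _ _ _ _ (enc4_lt (φ 0)) (enc4_lt (φ 1)) (enc4_lt (φ 2)) (enc4_lt (φ 3))
    (enc4_lt (φ 4)) (enc4_lt (φ 5)) (enc4_lt (φ 6)) (l _ _ (by decide)) (l _ _ (by decide))
    (l _ _ (by decide)) (l _ _ (by decide)) (l _ _ (by decide)) (l _ _ (by decide)), ?_⟩
  intro i hi
  simp only [List.mem_cons, List.not_mem_nil, or_false] at hi
  rcases hi with rfl | rfl | rfl | rfl | rfl | rfl | rfl <;> exact ⟨_, hφ _, rfl⟩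

lemma mk_copy {t : ℕ} {F : Set (Fin 2 → Fin t)} (f : Fin 7 → Fin 2 → Fin t)
    (h : ∀ i : Fin 6, f i.castSucc 0 ≤ f i.succ 0 ∧ f i.castSucc 1 ≤ f i.succ 1 ∧
      f i.castSucc ≠ f i.succ) (hF : ∀ i, f i ∈ F) : HasCopy (Fin 7) F :=
  ⟨OrderEmbedding.ofStrictMono f (Fin.strictMono_iff_lt_succ.2
    (fun i => (lt_iff _ _).2 (h i))), hF⟩

lemma ch_ok : ∀ c ∈ ch, (∀ i : Fin 6, dec4 (c.getD i.castSucc 0) 0 ≤ dec4 (c.getD i.succ 0) 0 ∧
    dec4 (c.getD i.castSucc 0) 1 ≤ dec4 (c.getD i.succ 0) 1 ∧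
    dec4 (c.getD i.castSucc 0) ≠ dec4 (c.getD i.succ 0)) ∧
    (∀ i : Fin 7, enc 4 (dec4 (c.getD i 0)) ∈ c) ∧ 0 ∈ c := by decide +kernel

lemma lower {F : Set (Fin 2 → Fin 4)} (h : Saturated (Fin 7) F) : 12 ≤ F.ncard := by
  classical
  have hc : ((Fᶜ.toFinset).image (enc 4)).card ≤ 4 := by
    refine go_sound _ ?_ ?_ 10 [] go_true (by simp)
    · intro c hc
      by_contra hh
      push Not at hh
      refine h.1 (mk_copy (fun i => dec4 (c.getD i 0)) (ch_ok c hc).1 (fun i => ?_))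
      by_contra hn
      exact hh _ ((ch_ok c hc).2.1 i) (Finset.mem_image_of_mem _ (by simpa using hn))
    · intro x hx
      obtain ⟨p, hp, rfl⟩ := Finset.mem_image.1 hx
      obtain ⟨c, c1, c2⟩ := copy4 (h.2 p (by simpa using hp))
      refine ⟨c, c1, fun i hi hS => ?_⟩
      obtain ⟨q, q1, rfl⟩ := c2 i hi
      obtain ⟨r, r1, r2⟩ := Finset.mem_image.1 hS
      rw [enc4_inj r2] at r1
      rcases q1 with rfl | q1
      · rfl
      · exact absurd q1 (by simpa using r1)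
  rw [Finset.card_image_of_injective _ enc4_inj, ← Set.ncard_eq_toFinset_card'] at hc
  have := Set.ncard_add_ncard_compl F
  simp only [Nat.card_eq_fintype_card, Fintype.card_pi, Fintype.card_fin, Finset.prod_const,
    Finset.card_univ] at this
  omega

lemma full4 : HasCopy (Fin 7) (Set.univ : Set (Fin 2 → Fin 4)) :=
  mk_copy (fun i => dec4 ([0, 1, 2, 3, 7, 11, 15].getD i 0)) (by decide +kernel) (fun _ => trivial)

lemma ex4 : Saturated (Fin 7) {p : Fin 2 → Fin 4 | enc 4 p ≠ 0} := by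
  constructor
  · intro h
    obtain ⟨c, c1, c2⟩ := copy4 h
    obtain ⟨p, p1, p2⟩ := c2 0 (ch_ok c c1).2.2
    exact p1 p2
  · intro f hf
    obtain ⟨φ, -⟩ := full4
    refine ⟨φ, fun x => ?_⟩
    by_cases h : enc 4 (φ x) = 0
    · exact Or.inl (enc4_inj (h.trans (not_not.1 hf).symm))
    · exact Or.inr h

def F5 : Finset (Fin 2 → Fin 5) := Finset.univ.filter (fun p => enc 5 p ∈ Fl)

lemma F5_card : F5.card = 10 := by decide +kernel

lemma F5_h : ∀ p q : Fin 2 → Fin 5, enc 5 p ∈ Fl → enc 5 q ∈ Fl →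
    p 0 ≤ q 0 ∧ p 1 ≤ q 1 ∧ p ≠ q → Hl.getD (enc 5 p) 0 < Hl.getD (enc 5 q) 0 := by
  decide +kernel

lemma F5_b : ∀ p : Fin 2 → Fin 5, Hl.getD (enc 5 p) 0 < 6 := by decide +kernel

lemma F5_s : ∀ p : Fin 2 → Fin 5, enc 5 p ∉ Fl → ∃ c ∈ Ll,
    (∀ i : Fin 7, dec5 (c.getD i 0) = p ∨ enc 5 (dec5 (c.getD i 0)) ∈ Fl) ∧
    (∀ i : Fin 6, dec5 (c.getD i.castSucc 0) 0 ≤ dec5 (c.getD i.succ 0) 0 ∧
    dec5 (c.getD i.castSucc 0) 1 ≤ dec5 (c.getD i.succ 0) 1 ∧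
    dec5 (c.getD i.castSucc 0) ≠ dec5 (c.getD i.succ 0)) := by decide +kernel

lemma ex5 : Saturated (Fin 7) (F5 : Set (Fin 2 → Fin 5)) := by
  constructor
  · rintro ⟨φ, hφ⟩
    have m : ∀ x, enc 5 (φ x) ∈ Fl := fun x => by simpa [F5] using hφ x
    have s : StrictMono (fun x => Hl.getD (enc 5 (φ x)) 0) := fun a b hab =>
      F5_h _ _ (m a) (m b) ((lt_iff _ _).1 (φ.strictMono hab))
    have a0 := s (show (0 : Fin 7) < 1 by decide)
    have a1 := s (show (1 : Fin 7) < 2 by decide)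
    have a2 := s (show (2 : Fin 7) < 3 by decide)
    have a3 := s (show (3 : Fin 7) < 4 by decide)
    have a4 := s (show (4 : Fin 7) < 5 by decide)
    have a5 := s (show (5 : Fin 7) < 6 by decide)
    have a6 := F5_b (φ 6)
    simp only at a0 a1 a2 a3 a4 a5
    omega
  · intro f hf
    obtain ⟨c, -, c1, c2⟩ := F5_s f (by simpa [F5] using hf)
    refine mk_copy (fun i => dec5 (c.getD i 0)) c2 (fun i => ?_)
    rcases c1 i with h | h
    · exact Or.inl h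
    · exact Or.inr (by simpa [F5] using h)

theorem result : HasCopy (Fin 7) (Set.univ : Set (Fin 2 → Fin 4)) ∧
    (∃ F : Set (Fin 2 → Fin 5), Saturated (Fin 7) F) ∧
    sat (Fin 7) 2 5 < sat (Fin 7) 2 4 := by
  refine ⟨full4, ⟨_, ex5⟩, ?_⟩
  have h1 : sat (Fin 7) 2 5 ≤ 10 := Nat.sInf_le ⟨_, ex5, by rw [Set.ncard_coe_finset, F5_card]⟩
  have h2 : 12 ≤ sat (Fin 7) 2 4 :=
    le_csInf ⟨_, _, ex4, rfl⟩ (by rintro m ⟨F, a, rfl⟩; exact lower a)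
  omega

end Pool.Agent.Results.MP_8c6834_co.Chain
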